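import Pool.Agent.Helper70.TB.GFun

/-!
# Project TB (MP_56afde): peeling off the factors one by one (module TB-H)
-/

set_option autoImplicit false

namespace Pool.Agent.Lead.TB

open Finset

namespace Up

/-- Removing a perfect matching. -/
def del {n : ℕ} (G : Gr n) (σ : Equiv.Perm (Fin n)) : Gr n := fun r => (G r).erase (σ r)

theorem reg_del {n N : ℕ} (G : Gr n) (hG : Reg (N + 1) G) (σ : Equiv.Perm (Fin n))
    (hσ : ∀ r, σ r ∈ G r) : Reg N (del G σ) := by
  refine ⟨fun r => ?_, fun c => ?_⟩
  · unfold del
    rw [Finset.card_erase_of_mem (hσ r), hG.1 r]; rfl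
  · have h1 : (univ.filter fun r => c ∈ del G σ r) =
        (univ.filter fun r => c ∈ G r).erase (σ.symm c) := by
      ext r
      simp only [del, mem_erase, mem_filter, mem_univ, true_and]
      constructor
      · rintro ⟨h1, h2⟩
        exact ⟨fun h => h1 (by rw [h]; simp), h2⟩
      · rintro ⟨h1, h2⟩
        exact ⟨fun h => h1 (by rw [h]; simp), h2⟩
    rw [h1, Finset.card_erase_of_mem, hG.2 c]
    · rfl
    · rw [mem_filter]
      refine ⟨mem_univ _, ?_⟩
      have := hσ (σ.symm c)
      simpa using this

/-- The recursion: peel off member `0`. -/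
theorem peel_step {n N b : ℕ} (G F : Gr n) :
    (av (Fin (N + 1)) (univ.filter fun i : Fin (N + 1) => (i : ℕ) + b < N + 1) G F).card ≤
      ∑ σ ∈ pm (fun r => if b < N + 1 then G r \ F r else G r),
        (av (Fin N) (univ.filter fun i : Fin N => (i : ℕ) + b < N) (del G σ) F).card := by
  classical
  rw [← Finset.card_sigma]
  apply Finset.card_le_card_of_injOn
    (fun σ : Fin (N + 1) → Equiv.Perm (Fin n) =>
      (⟨σ 0, fun i => σ i.succ⟩ : Σ _ : Equiv.Perm (Fin n), (Fin N → Equiv.Perm (Fin n))))
  · intro σ hσ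
    have hσ' := hσ
    simp only [av, fac, coe_filter, mem_filter, mem_univ, true_and, Set.mem_ofPred_eq] at hσ'
    obtain ⟨⟨h1, h2⟩, h3⟩ := hσ'
    simp only [coe_sigma, Set.mem_sigma_iff, mem_coe]
    refine ⟨?_, ?_⟩
    · unfold pm
      rw [mem_filter]
      refine ⟨mem_univ _, fun r => ?_⟩
      split_ifs with hb
      · rw [mem_sdiff]
        exact ⟨h1 0 r, h3 0 (by simpa using hb) r⟩
      · exact h1 0 r
    · simp only [av, fac, mem_filter, mem_univ, true_and]
      refine ⟨⟨fun i r => ?_, fun i j hij r => ?_⟩, fun i hi r => ?_⟩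
      · unfold del
        rw [mem_erase]
        exact ⟨h2 i.succ 0 (Fin.succ_ne_zero i) r, h1 i.succ r⟩
      · exact h2 i.succ j.succ (fun h => hij (Fin.succ_injective _ h)) r
      · exact h3 i.succ (by simp only [Fin.val_succ]; omega) r
  · intro σ _ τ _ h
    simp only [Sigma.mk.injEq, heq_eq_eq] at h
    funext i
    refine Fin.cases h.1 (fun j => ?_) i
    exact congrFun h.2 j

theorem peel {n : ℕ} (b : ℕ) (F : Gr n) : ∀ (N : ℕ) (G : Gr n), Reg N G →
    (b < N → ∀ r, F r ⊆ G r) →
    ((av (Fin N) (univ.filter fun i : Fin N => (i : ℕ) + b < N) G F).card : ℝ) ≤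
      ∏ j ∈ Icc 1 N, ∏ r, (if b < j then g (j - (F r).card) else g j) := by
  intro N
  induction N with
  | zero =>
    intro G _ _
    have : (av (Fin 0) (univ.filter fun i : Fin 0 => (i : ℕ) + b < 0) G F).card ≤ 1 :=
      Finset.card_le_one.mpr fun σ _ τ _ => Subsingleton.elim _ _
    simpa using this
  | succ N ih =>
    intro G hG hF
    have h1 := peel_step (N := N) (b := b) G F
    have h2 : ∀ σ ∈ pm (fun r => if b < N + 1 then G r \ F r else G r),
        ((av (Fin N) (univ.filter fun i : Fin N => (i : ℕ) + b < N) (del G σ) F).card : ℝ) ≤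
          ∏ j ∈ Icc 1 N, ∏ r, (if b < j then g (j - (F r).card) else g j) := by
      intro σ hσ
      unfold pm at hσ
      rw [mem_filter] at hσ
      have hσ' := hσ.2
      have hmem : ∀ r, σ r ∈ G r := by
        intro r
        have := hσ' r
        split_ifs at this with hb
        · exact (mem_sdiff.mp this).1
        · exact this
      refine ih (del G σ) (reg_del G hG σ hmem) fun hb r x hx => ?_
      have hb' : b < N + 1 := by omega
      have h3 := hσ' r
      simp only [if_pos hb', mem_sdiff] at h3
      unfold del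
      rw [mem_erase]
      exact ⟨fun h => h3.2 (h ▸ hx), hF hb' r hx⟩
    have h3 : ((pm (fun r => if b < N + 1 then G r \ F r else G r)).card : ℝ) ≤
        ∏ r, (if b < N + 1 then g (N + 1 - (F r).card) else g (N + 1)) := by
      refine (bregman _).trans (le_of_eq ?_)
      refine Finset.prod_congr rfl fun r _ => ?_
      split_ifs with hb
      · rw [Finset.card_sdiff_of_subset (hF hb r), hG.1 r]
      · rw [hG.1 r]
    rw [Finset.prod_Icc_succ_top (by omega), mul_comm]
    calc ((av (Fin (N + 1)) (univ.filter fun i : Fin (N + 1) => (i : ℕ) + b < N + 1) G F).card : ℝ)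
        ≤ ∑ σ ∈ pm (fun r => if b < N + 1 then G r \ F r else G r),
          ((av (Fin N) (univ.filter fun i : Fin N => (i : ℕ) + b < N) (del G σ) F).card : ℝ) := by
          exact_mod_cast h1
      _ ≤ ∑ σ ∈ pm (fun r => if b < N + 1 then G r \ F r else G r),
          ∏ j ∈ Icc 1 N, ∏ r, (if b < j then g (j - (F r).card) else g j) := Finset.sum_le_sum h2
      _ = ((pm (fun r => if b < N + 1 then G r \ F r else G r)).card : ℝ) *
          ∏ j ∈ Icc 1 N, ∏ r, (if b < j then g (j - (F r).card) else g j) := by
          rw [Finset.sum_const, nsmul_eq_mul]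
      _ ≤ _ := by
          refine mul_le_mul_of_nonneg_right h3 (Finset.prod_nonneg fun j _ =>
            Finset.prod_nonneg fun r _ => ?_)
          split_ifs
          · exact (Breg.g_pos _).le
          · exact (Breg.g_pos _).le

/-- If the first `c` of `2c` factors avoid `F`, then `F` has at most `c` cells in each row. -/
theorem card_F_le {n c : ℕ} (G F : Gr n) (hG : Reg (2 * c) G) (hF : ∀ r, F r ⊆ G r)
    (σ : Fin (2 * c) → Equiv.Perm (Fin n))
    (hσ : σ ∈ av (Fin (2 * c)) (univ.filter fun i : Fin (2 * c) => (i : ℕ) < c) G F) (r : Fin n) :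
    (F r).card ≤ c := by
  classical
  simp only [av, fac, mem_filter, mem_univ, true_and] at hσ
  obtain ⟨⟨h1, h2⟩, h3⟩ := hσ
  have hinj : Function.Injective fun i => σ i r := by
    intro i j hij
    by_contra hne
    exact h2 i j hne r hij
  have himg : univ.image (fun i => σ i r) = G r := by
    apply Finset.eq_of_subset_of_card_le
    · intro x hx
      obtain ⟨i, _, rfl⟩ := mem_image.mp hx
      exact h1 i r
    · rw [Finset.card_image_of_injective _ hinj, hG.1 r, Finset.card_univ, Fintype.card_fin]
  have hsub : F r ⊆ (univ.filter fun i : Fin (2 * c) => ¬ (i : ℕ) < c).image (fun i => σ i r) := by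
    intro x hx
    have hx' := hF r hx
    rw [← himg] at hx'
    obtain ⟨i, _, rfl⟩ := mem_image.mp hx'
    refine mem_image.mpr ⟨i, ?_, rfl⟩
    rw [mem_filter]
    exact ⟨mem_univ _, fun hi => h3 i hi r hx⟩
  refine (Finset.card_le_card hsub).trans (Finset.card_image_le.trans ?_)
  have h4 : (univ.filter fun i : Fin (2 * c) => (i : ℕ) < c).card +
      (univ.filter fun i : Fin (2 * c) => ¬ (i : ℕ) < c).card = 2 * c := by
    rw [Finset.card_filter_add_card_filter_not, Finset.card_univ, Fintype.card_fin]
  have h5 : (univ.filter fun i : Fin (2 * c) => (i : ℕ) < c).card = c := by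
    have : (univ.filter fun i : Fin (2 * c) => (i : ℕ) < c) =
        univ.map (Fin.castLEEmb (by omega : c ≤ 2 * c)) := by
      ext i
      simp only [mem_filter, mem_univ, true_and, mem_map, Fin.coe_castLEEmb]
      constructor
      · intro h
        exact ⟨⟨i, h⟩, by ext; simp⟩
      · rintro ⟨j, rfl⟩
        simp
    rw [this, Finset.card_map, Finset.card_univ, Fintype.card_fin]
  omega

end Up

theorem upper {n c : ℕ} (hc : 1 ≤ c) (G F : Gr n) (hG : Reg (2 * c) G) (hF : ∀ r, F r ⊆ G r) :
    ((av (Fin (2 * c)) (univ.filter fun i : Fin (2 * c) => (i : ℕ) < c) G F).card : ℝ) ≤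
      Real.exp (-(Real.log 2 / 2 * (∑ r, (F r).card : ℕ))) * (∏ j ∈ Icc 1 (2 * c), g j) ^ n := by
  classical
  have hgp : 0 < ∏ j ∈ Icc 1 (2 * c), g j := Finset.prod_pos fun j _ => Breg.g_pos j
  rcases (av (Fin (2 * c)) (univ.filter fun i : Fin (2 * c) => (i : ℕ) < c) G F).eq_empty_or_nonempty
    with he | ⟨σ, hσ⟩
  · rw [he, Finset.card_empty, Nat.cast_zero]
    positivity
  have hf : ∀ r, (F r).card ≤ c := Up.card_F_le G F hG hF σ hσ
  have h1 := Up.peel c F (2 * c) G hG fun _ => hF
  have h2 : (univ.filter fun i : Fin (2 * c) => (i : ℕ) + c < 2 * c) =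
      univ.filter fun i : Fin (2 * c) => (i : ℕ) < c := by
    ext i
    simp only [mem_filter, mem_univ, true_and]
    omega
  rw [h2] at h1
  refine h1.trans ?_
  have hc' : (0 : ℝ) < c := by exact_mod_cast hc
  have hl : 0 < Real.log 2 := Real.log_pos (by norm_num)
  -- termwise estimate
  have h3 : ∀ j ∈ Icc 1 (2 * c), ∏ r, (if c < j then g (j - (F r).card) else g j) ≤
      g j ^ n * (if c < j then
        Real.exp (-(Real.log 2 * (∑ r, (F r).card : ℕ) / (2 * c))) else 1) := by
    intro j hj
    rw [mem_Icc] at hj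
    by_cases hcj : c < j
    · simp only [if_pos hcj]
      have hj' : (0 : ℝ) < j := by exact_mod_cast (by omega : 0 < j)
      have h4 : ∀ r ∈ (univ : Finset (Fin n)), g (j - (F r).card) ≤
          g j * Real.exp (-(Real.log 2 * ((F r).card : ℝ) / (2 * c))) := by
        intro r _
        have h5 := g_ratio (d := j - (F r).card) (j := j) (by have := hf r; omega) (Nat.sub_le _ _)
        refine h5.trans ?_
        refine mul_le_mul_of_nonneg_left (Real.exp_le_exp.mpr ?_) (Breg.g_pos _).le
        have h6 : (j : ℝ) - ((j - (F r).card : ℕ) : ℝ) = (F r).card := by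
          rw [Nat.cast_sub (by have := hf r; omega)]; ring
        rw [h6, neg_le_neg_iff]
        apply div_le_div_of_nonneg_left (by positivity) hj'
        exact_mod_cast hj.2
      refine (Finset.prod_le_prod (fun r _ => (Breg.g_pos _).le) h4).trans (le_of_eq ?_)
      rw [Finset.prod_mul_distrib, Finset.prod_const, Finset.card_univ, Fintype.card_fin,
        ← Real.exp_sum]
      congr 2
      rw [Finset.sum_neg_distrib, ← Finset.sum_div, ← Finset.mul_sum]
      push_cast
      rfl
    · simp only [if_neg hcj, mul_one]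
      rw [Finset.prod_const, Finset.card_univ, Fintype.card_fin]
  refine (Finset.prod_le_prod (fun j _ => Finset.prod_nonneg fun r _ => ?_) h3).trans
    (le_of_eq ?_)
  · split_ifs
    · exact (Breg.g_pos _).le
    · exact (Breg.g_pos _).le
  rw [Finset.prod_mul_distrib, Finset.prod_pow, mul_comm]
  congr 1
  rw [Finset.prod_ite, Finset.prod_const_one, mul_one, Finset.prod_const, ← Real.exp_nat_mul]
  congr 1
  have h7 : ((Icc 1 (2 * c)).filter fun j => c < j).card = c := by
    have : ((Icc 1 (2 * c)).filter fun j => c < j) = Icc (c + 1) (2 * c) := by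
      ext j
      simp only [mem_filter, mem_Icc]
      omega
    rw [this, Nat.card_Icc]
    omega
  rw [h7]
  field_simp

end Pool.Agent.Lead.TB
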