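import Pool.Agent.Helper70.TB.Bregman

/-!
# Project TB (MP_56afde): the function `g d = (d!)^(1/d)` (module TB-G)
-/

set_option autoImplicit false

namespace Pool.Agent.Lead.TB

open Finset

namespace GF

open Breg

/-- AM-GM: `d! ≤ ((d+1)/2)^d`. -/
theorem fact_le (d : ℕ) : (d.factorial : ℝ) ≤ (((d : ℝ) + 1) / 2) ^ d := by
  induction d with
  | zero => simp
  | succ d ih =>
    rw [Nat.factorial_succ]
    push_cast
    have h1 : (0 : ℝ) < (d : ℝ) + 1 := by positivity
    have h2 : (1 : ℝ) + ((d + 1 : ℕ) : ℝ) * (1 / ((d : ℝ) + 1)) ≤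
        (1 + 1 / ((d : ℝ) + 1)) ^ (d + 1) :=
      one_add_mul_le_pow (by have : (0 : ℝ) < 1 / ((d : ℝ) + 1) := by positivity
                             linarith) _
    have h3 : (1 : ℝ) + ((d + 1 : ℕ) : ℝ) * (1 / ((d : ℝ) + 1)) = 2 := by
      push_cast; field_simp; norm_num
    rw [h3] at h2
    have h4 : ((d : ℝ) + 1 + 1) / 2 = ((d : ℝ) + 1) / 2 * (1 + 1 / ((d : ℝ) + 1)) := by
      field_simp
    rw [h4, mul_pow]
    calc ((d : ℝ) + 1) * (d.factorial : ℝ) ≤ ((d : ℝ) + 1) * (((d : ℝ) + 1) / 2) ^ d := by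
          exact mul_le_mul_of_nonneg_left ih h1.le
      _ = (((d : ℝ) + 1) / 2) ^ (d + 1) * 2 := by rw [pow_succ]; ring
      _ ≤ (((d : ℝ) + 1) / 2) ^ (d + 1) * (1 + 1 / ((d : ℝ) + 1)) ^ (d + 1) :=
          mul_le_mul_of_nonneg_left h2 (by positivity)

theorem L_step (d : ℕ) (hd : 1 ≤ d) : L d + Real.log 2 / ((d : ℝ) + 1) ≤ L (d + 1) := by
  have hd' : (0 : ℝ) < d := by exact_mod_cast hd
  have h1 : (0 : ℝ) < (d : ℝ) + 1 := by positivity
  have h2 : Real.log (d.factorial : ℝ) ≤ d * Real.log (((d : ℝ) + 1) / 2) := by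
    rw [← Real.log_pow]
    exact Real.log_le_log (by exact_mod_cast d.factorial_pos) (fact_le d)
  rw [Real.log_div h1.ne' (by norm_num)] at h2
  have h3 : L d ≤ Real.log ((d : ℝ) + 1) - Real.log 2 := by
    unfold L
    rw [div_le_iff₀ hd']
    linarith
  have h4 := step_L (d + 1) (by omega)
  have h5 : ((d + 1 : ℕ) : ℝ) - 1 = (d : ℝ) := by push_cast; ring
  rw [h5, Nat.add_sub_cancel] at h4
  push_cast at h4
  have h6 : L d + Real.log 2 / ((d : ℝ) + 1) = (((d : ℝ) + 1) * L d + Real.log 2) / ((d : ℝ) + 1) := by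
    field_simp
  rw [h6, div_le_iff₀ h1]
  linarith

theorem L_diff (d : ℕ) (hd : 1 ≤ d) (k : ℕ) :
    L d + Real.log 2 * (k : ℝ) / ((d + k : ℕ) : ℝ) ≤ L (d + k) := by
  have hd' : (0 : ℝ) < d := by exact_mod_cast hd
  have hl : 0 < Real.log 2 := Real.log_pos (by norm_num)
  induction k with
  | zero => simp
  | succ k ih =>
    have h1 := L_step (d + k) (by omega)
    have h2 : Real.log 2 * (k : ℝ) / (((d + k : ℕ) : ℝ) + 1) ≤
        Real.log 2 * (k : ℝ) / ((d + k : ℕ) : ℝ) := by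
      apply div_le_div_of_nonneg_left (by positivity) (by push_cast; positivity) (by linarith)
    have h3 : Real.log 2 * ((k + 1 : ℕ) : ℝ) / ((d + (k + 1) : ℕ) : ℝ) =
        Real.log 2 * (k : ℝ) / (((d + k : ℕ) : ℝ) + 1) + Real.log 2 / (((d + k : ℕ) : ℝ) + 1) := by
      push_cast
      rw [← add_div]
      congr 1 <;> ring
    rw [h3]
    have h4 : d + (k + 1) = d + k + 1 := by ring
    rw [h4]
    linarith

/-- `log m! ≥ m log m - m`. -/
theorem fact_low (m : ℕ) (hm : 1 ≤ m) :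
    (m : ℝ) * Real.log m - m ≤ Real.log (m.factorial : ℝ) := by
  induction m, hm using Nat.le_induction with
  | base => simp
  | succ m hm ih =>
    have hm' : (0 : ℝ) < m := by exact_mod_cast hm
    have h1 : Real.log (((m : ℝ) + 1) / m) ≤ ((m : ℝ) + 1) / m - 1 :=
      Real.log_le_sub_one_of_pos (by positivity)
    rw [Real.log_div (by positivity) hm'.ne'] at h1
    have h2 : (m : ℝ) * (Real.log ((m : ℝ) + 1) - Real.log m) ≤ m * (((m : ℝ) + 1) / m - 1) :=
      mul_le_mul_of_nonneg_left h1 hm'.le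
    have h3 : (m : ℝ) * (((m : ℝ) + 1) / m - 1) = 1 := by field_simp; ring
    rw [h3] at h2
    rw [Nat.factorial_succ, Nat.cast_mul, Real.log_mul (by positivity)
      (by exact_mod_cast m.factorial_ne_zero)]
    push_cast
    linarith

/-- `log m! ≤ 1 + log m / 2 + m log m - m`. -/
theorem fact_up (m : ℕ) (hm : 1 ≤ m) :
    Real.log (m.factorial : ℝ) ≤ 1 + Real.log m / 2 + (m : ℝ) * Real.log m - m := by
  obtain ⟨k, rfl⟩ : ∃ k, m = k + 1 := ⟨m - 1, by omega⟩
  have h := Stirling.stirlingSeq'_antitone (Nat.zero_le k)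
  simp only [Function.comp] at h
  have h0 : 0 < Stirling.stirlingSeq (k + 1) := Stirling.stirlingSeq'_pos k
  have h1 := Real.log_le_log h0 h
  rw [Stirling.log_stirlingSeq_formula, Stirling.log_stirlingSeq_formula] at h1
  have hk : (0 : ℝ) < ((k + 1 : ℕ) : ℝ) := by positivity
  rw [Real.log_mul (by norm_num) hk.ne', Real.log_div hk.ne' (Real.exp_pos _).ne',
    Real.log_exp] at h1
  simp at h1
  push_cast at h1 ⊢
  linarith

end GF

theorem g_ratio {d j : ℕ} (hd : 1 ≤ d) (hj : d ≤ j) :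
    g d ≤ g j * Real.exp (-(Real.log 2 * ((j : ℝ) - d) / j)) := by
  obtain ⟨k, rfl⟩ := Nat.exists_eq_add_of_le hj
  have h := GF.L_diff d hd k
  rw [← Breg.log_g, ← Breg.log_g] at h
  rw [← Real.exp_log (Breg.g_pos d), ← Real.exp_log (Breg.g_pos (d + k)), ← Real.exp_add]
  apply Real.exp_le_exp.mpr
  have : ((d + k : ℕ) : ℝ) - d = k := by push_cast; ring
  rw [this]
  linarith

theorem g_prod {m : ℕ} (hm : 1 ≤ m) :
    ∏ j ∈ Icc 1 m, g j ≤ (m.factorial : ℝ) ^ 2 / (m : ℝ) ^ m * Real.exp (loss m) := by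
  have hm' : (0 : ℝ) < m := by exact_mod_cast hm
  have hf : (0 : ℝ) < m.factorial := by exact_mod_cast m.factorial_pos
  have hpos : 0 < ∏ j ∈ Icc 1 m, g j := Finset.prod_pos fun j _ => Breg.g_pos j
  have hR : 0 < (m.factorial : ℝ) ^ 2 / (m : ℝ) ^ m * Real.exp (loss m) := by positivity
  rw [← Real.log_le_log_iff hpos hR, Real.log_prod (fun j _ => (Breg.g_pos j).ne'),
    Real.log_mul (by positivity) (Real.exp_pos _).ne', Real.log_exp,
    Real.log_div (by positivity) (by positivity), Real.log_pow, Real.log_pow]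
  have hlog : 0 ≤ Real.log m := Real.log_nonneg (by exact_mod_cast hm)
  have h1 : ∀ j ∈ Icc 1 m, Real.log (g j) ≤
      (1 + Real.log m / 2) * ((j : ℝ)⁻¹) + (Real.log j - 1) := by
    intro j hj
    rw [mem_Icc] at hj
    have hj' : (0 : ℝ) < j := by exact_mod_cast hj.1
    rw [Breg.log_g]
    unfold Breg.L
    rw [div_le_iff₀ hj']
    have h2 := GF.fact_up j hj.1
    have h3 : Real.log j ≤ Real.log m := Real.log_le_log hj' (by exact_mod_cast hj.2)
    have h4 : ((1 + Real.log m / 2) * ((j : ℝ)⁻¹) + (Real.log j - 1)) * j =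
        (1 + Real.log m / 2) + j * Real.log j - j := by
      field_simp
      ring
    rw [h4]
    linarith
  refine (Finset.sum_le_sum h1).trans ?_
  rw [Finset.sum_add_distrib, ← Finset.mul_sum, Finset.sum_sub_distrib]
  have h5 : ∑ j ∈ Icc 1 m, ((j : ℝ)⁻¹) ≤ 1 + Real.log m := by
    have := harmonic_le_one_add_log m
    rw [harmonic_eq_sum_Icc] at this
    push_cast at this
    exact this
  have h6 : ∑ j ∈ Icc 1 m, Real.log (j : ℝ) = Real.log (m.factorial : ℝ) := by
    clear * -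
    induction m with
    | zero => simp
    | succ m ih =>
      rw [Finset.sum_Icc_succ_top (by omega), ih, Nat.factorial_succ, Nat.cast_mul,
        Real.log_mul (by positivity) (by exact_mod_cast m.factorial_ne_zero)]
      ring
  have h7 : ∑ j ∈ Icc 1 m, (1 : ℝ) = m := by simp
  rw [h6, h7]
  have h8 := GF.fact_low m hm
  have h9 : (1 + Real.log m / 2) * ∑ j ∈ Icc 1 m, ((j : ℝ)⁻¹) ≤ loss m := by
    unfold loss
    exact mul_le_mul_of_nonneg_left h5 (by positivity)
  push_cast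
  linarith

end Pool.Agent.Lead.TB
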