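import Pool.Agent.Lead.TB.Defs

/-!
# Project TB (MP_56afde): Bregman's theorem (module TB-A)

Schrijver's proof, by induction on the number of rows, for general finite sets of rows and columns.
-/

set_option autoImplicit false

namespace Pool.Agent.Lead.TB

open Finset

namespace Breg

/-- `log (d!) / d`. -/
noncomputable def L (d : ℕ) : ℝ := Real.log (d.factorial : ℝ) / d

theorem g_pos (d : ℕ) : 0 < g d := by
  unfold g
  have : (0 : ℝ) < d.factorial := by exact_mod_cast d.factorial_pos
  exact Real.rpow_pos_of_pos this _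

theorem log_g (d : ℕ) : Real.log (g d) = L d := by
  unfold g L
  have : (0 : ℝ) < d.factorial := by exact_mod_cast d.factorial_pos
  rw [Real.log_rpow this]
  ring

theorem mul_L (d : ℕ) : (d : ℝ) * L d = Real.log (d.factorial : ℝ) := by
  unfold L
  rcases Nat.eq_zero_or_pos d with h | h
  · subst h; simp
  · have : (d : ℝ) ≠ 0 := by exact_mod_cast h.ne'
    field_simp

theorem step_L (d : ℕ) (hd : 1 ≤ d) :
    Real.log d + ((d : ℝ) - 1) * L (d - 1) = (d : ℝ) * L d := by
  obtain ⟨e, rfl⟩ : ∃ e, d = e + 1 := ⟨d - 1, by omega⟩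
  rw [mul_L]
  have h1 : ((e + 1 : ℕ) : ℝ) - 1 = (e : ℝ) := by push_cast; ring
  have h2 : e + 1 - 1 = e := rfl
  rw [h1, h2, mul_L, Nat.factorial_succ, Nat.cast_mul, Real.log_mul]
  · exact_mod_cast (Nat.succ_ne_zero e)
  · exact_mod_cast e.factorial_ne_zero

/-- The log-sum inequality. -/
theorem log_sum {K : Type} (s : Finset K) (t : K → ℕ) (hs : s.Nonempty) (p : ℕ) (hp : 0 < p)
    (hsum : ∑ k ∈ s, t k = p) :
    (p : ℝ) * Real.log p ≤ (p : ℝ) * Real.log s.card + ∑ k ∈ s, (t k : ℝ) * Real.log (t k) := by
  have hr : (0 : ℝ) < s.card := by exact_mod_cast hs.card_pos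
  have hp' : (0 : ℝ) < p := by exact_mod_cast hp
  have key : ∀ k ∈ s, (t k : ℝ) * (Real.log p - Real.log s.card) ≤
      (t k : ℝ) * Real.log (t k) + ((p : ℝ) / s.card - t k) := by
    intro k _
    rcases Nat.eq_zero_or_pos (t k) with h | h
    · rw [h]; simp; positivity
    · have ht : (0 : ℝ) < t k := by exact_mod_cast h
      have h1 := Real.log_le_sub_one_of_pos (x := (p : ℝ) / s.card / t k) (by positivity)
      rw [Real.log_div (by positivity) ht.ne', Real.log_div hp'.ne' hr.ne'] at h1
      have h2 : (t k : ℝ) * (Real.log p - Real.log s.card - Real.log (t k)) ≤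
          (t k : ℝ) * ((p : ℝ) / s.card / t k - 1) := mul_le_mul_of_nonneg_left h1 ht.le
      have h3 : (t k : ℝ) * ((p : ℝ) / s.card / t k - 1) = (p : ℝ) / s.card - t k := by
        field_simp
      rw [h3] at h2
      linarith
  have h := Finset.sum_le_sum key
  rw [← Finset.sum_mul, Finset.sum_add_distrib, Finset.sum_sub_distrib, Finset.sum_const,
    nsmul_eq_mul] at h
  have h4 : ∑ k ∈ s, (t k : ℝ) = p := by exact_mod_cast hsum
  rw [h4] at h
  have h5 : (s.card : ℝ) * ((p : ℝ) / s.card) = p := by field_simp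
  rw [h5] at h
  linarith

variable {I J : Type} [Fintype I] [Fintype J] [DecidableEq I] [DecidableEq J]

/-- The perfect matchings. -/
def M (A : I → Finset J) : Finset (I ≃ J) := univ.filter fun σ => ∀ i, σ i ∈ A i

/-- The restriction of a matching to the minor. -/
theorem minor (A : I → Finset J) (i : I) (k : J) :
    ((M A).filter fun σ => σ i = k).card ≤
      (M (I := {x // x ≠ i}) (J := {y // y ≠ k})
        fun x => univ.filter fun y : {y // y ≠ k} => (y : J) ∈ A x).card := by
  classical
  let φ : (I ≃ J) → ({x // x ≠ i} ≃ {y // y ≠ k}) := fun σ =>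
    if h : σ i = k then σ.subtypeEquiv (fun a => by rw [← h]; simp) else
      if h' : Nonempty ({x // x ≠ i} ≃ {y // y ≠ k}) then h'.some else
        (σ.subtypeEquiv (p := fun x => x ≠ i) (q := fun y => y ≠ k) (fun a => by
          exfalso
          apply h'
          have e1 : Fintype.card I = Fintype.card J := Fintype.card_congr σ
          have e2 : Fintype.card {x // x ≠ i} = Fintype.card {y // y ≠ k} := by
            rw [Fintype.card_subtype_compl, Fintype.card_subtype_compl]
            simp [e1]
          exact ⟨Fintype.equivOfCardEq e2⟩))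
  apply Finset.card_le_card_of_injOn φ
  · intro σ hσ
    simp only [M, coe_filter, mem_filter, mem_univ, true_and, Set.mem_ofPred_eq] at hσ ⊢
    intro x
    simp only [φ, dif_pos hσ.2]
    exact hσ.1 x
  · intro σ hσ τ hτ h
    simp only [M, coe_filter, mem_filter, mem_univ, true_and, Set.mem_ofPred_eq] at hσ hτ
    simp only [φ, dif_pos hσ.2, dif_pos hτ.2] at h
    ext x
    by_cases hx : x = i
    · rw [hx, hσ.2, hτ.2]
    · have := congrArg (fun e => ((e ⟨x, hx⟩ : {y // y ≠ k}) : J)) h
      simpa using this

omit [Fintype J] in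
/-- The exponents of the minors, summed over the removed rows. -/
theorem sum_rows (A : I → Finset J) (σ : I ≃ J) (hσ : ∀ i, σ i ∈ A i) (j : I) :
    ∑ i ∈ univ.filter (fun i => i ≠ j), L ((A j).erase (σ i)).card =
      ((Fintype.card I : ℝ) - (A j).card) * L (A j).card +
        (((A j).card : ℝ) - 1) * L ((A j).card - 1) := by
  have hj : 1 ≤ (A j).card := Finset.card_pos.mpr ⟨_, hσ j⟩
  rw [← Finset.sum_filter_add_sum_filter_not _ (fun i => σ i ∈ A j)]
  have c1 : ((univ.filter (fun i => i ≠ j)).filter fun i => σ i ∈ A j).card = (A j).card - 1 := by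
    have : ((univ.filter (fun i => i ≠ j)).filter fun i => σ i ∈ A j) =
        ((A j).erase (σ j)).map σ.symm.toEmbedding := by
      ext i
      simp only [mem_filter, mem_univ, true_and, mem_map, mem_erase, Equiv.coe_toEmbedding]
      constructor
      · rintro ⟨h1, h2⟩
        exact ⟨σ i, ⟨fun h => h1 (σ.injective h), h2⟩, by simp⟩
      · rintro ⟨y, ⟨h1, h2⟩, rfl⟩
        refine ⟨fun h => h1 ?_, by simpa using h2⟩
        rw [← h]; simp
    rw [this, Finset.card_map, Finset.card_erase_of_mem (hσ j)]
  have c0 : (univ.filter (fun i => i ≠ j)).card = Fintype.card I - 1 := by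
    rw [Finset.filter_ne' univ j, Finset.card_erase_of_mem (mem_univ j), Finset.card_univ]
  have c2 : ((univ.filter (fun i => i ≠ j)).filter fun i => ¬ σ i ∈ A j).card + ((A j).card - 1) =
      Fintype.card I - 1 := by
    rw [← c1, ← c0, add_comm]
    exact Finset.card_filter_add_card_filter_not _
  have hI : 1 ≤ Fintype.card I := Fintype.card_pos_iff.mpr ⟨j⟩
  have c2' : (((univ.filter (fun i => i ≠ j)).filter fun i => ¬ σ i ∈ A j).card : ℝ) =
      (Fintype.card I : ℝ) - (A j).card := by
    have : ((univ.filter (fun i => i ≠ j)).filter fun i => ¬ σ i ∈ A j).card + (A j).card =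
        Fintype.card I := by omega
    rw [← this]; push_cast; ring
  have s1 : ∑ i ∈ (univ.filter (fun i => i ≠ j)).filter (fun i => σ i ∈ A j),
      L ((A j).erase (σ i)).card = (((A j).card : ℝ) - 1) * L ((A j).card - 1) := by
    rw [Finset.sum_congr rfl (g := fun _ => L ((A j).card - 1))]
    · rw [Finset.sum_const, c1, nsmul_eq_mul, Nat.cast_sub hj, Nat.cast_one]
    · intro i hi
      rw [Finset.card_erase_of_mem (mem_filter.mp hi).2]
  have s2 : ∑ i ∈ (univ.filter (fun i => i ≠ j)).filter (fun i => ¬ σ i ∈ A j),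
      L ((A j).erase (σ i)).card = ((Fintype.card I : ℝ) - (A j).card) * L (A j).card := by
    rw [Finset.sum_congr rfl (g := fun _ => L (A j).card)]
    · rw [Finset.sum_const, nsmul_eq_mul, c2']
    · intro i hi
      rw [Finset.erase_eq_of_notMem (mem_filter.mp hi).2]
  rw [s1, s2, add_comm]

theorem main (n : ℕ) : ∀ (I J : Type) [Fintype I] [Fintype J] [DecidableEq I] [DecidableEq J]
    (A : I → Finset J), Fintype.card I = n → ((M A).card : ℝ) ≤ ∏ i, g (A i).card := by
  classical
  induction n with
  | zero =>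
    intro I J _ _ _ _ A hI
    have : IsEmpty I := Fintype.card_eq_zero_iff.mp hI
    rw [Finset.prod_of_isEmpty]
    have : (M A).card ≤ 1 := Finset.card_le_one.mpr fun σ _ τ _ => by
      ext x; exact isEmptyElim x
    exact_mod_cast this
  | succ n ih =>
    intro I J _ _ _ _ A hI
    rcases Nat.eq_zero_or_pos (M A).card with h0 | hp
    · rw [h0, Nat.cast_zero]
      exact Finset.prod_nonneg fun i _ => (g_pos _).le
    set p := (M A).card with hpdef
    have hp' : (0 : ℝ) < p := by exact_mod_cast hp
    obtain ⟨σ₀, hσ₀⟩ := Finset.card_pos.mp hp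
    have hne : ∀ i, (A i).Nonempty := fun i => ⟨σ₀ i, (mem_filter.mp hσ₀).2 i⟩
    -- the number of matchings through a cell
    let P : I → J → ℕ := fun i k => ((M A).filter fun σ => σ i = k).card
    have hP : ∀ i, ∑ k ∈ A i, P i k = p := fun i =>
      (Finset.card_eq_sum_card_fiberwise (f := fun σ : I ≃ J => σ i) (s := M A) (t := A i)
        fun σ hσ => (mem_filter.mp hσ).2 i).symm
    -- the induction hypothesis
    have hmin : ∀ i, ∀ σ ∈ M A, Real.log (P i (σ i)) ≤
        ∑ j ∈ univ.filter (fun j => j ≠ i), L ((A j).erase (σ i)).card := by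
      intro i σ hσ
      have hpos : 0 < P i (σ i) := Finset.card_pos.mpr ⟨σ, mem_filter.mpr ⟨hσ, rfl⟩⟩
      have hc : Fintype.card {x // x ≠ i} = n := by
        rw [Fintype.card_subtype_compl, hI]; simp
      have h1 := ih {x // x ≠ i} {y // y ≠ σ i}
        (fun x => univ.filter fun y : {y // y ≠ σ i} => (y : J) ∈ A x) hc
      have h2 : (P i (σ i) : ℝ) ≤ ∏ x : {x // x ≠ i},
          g (univ.filter fun y : {y // y ≠ σ i} => (y : J) ∈ A x).card :=
        le_trans (by exact_mod_cast minor A i (σ i)) h1
      have h3 := Real.log_le_log (by exact_mod_cast hpos) h2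
      rw [Real.log_prod (fun x _ => (g_pos _).ne')] at h3
      refine h3.trans (le_of_eq ?_)
      rw [Finset.sum_subtype (univ.filter (fun j => j ≠ i)) (p := fun j => j ≠ i) (by simp)]
      refine Finset.sum_congr rfl fun x _ => ?_
      rw [log_g]
      congr 1
      have : ((A x).erase (σ i)) = (univ.filter fun y : {y // y ≠ σ i} => (y : J) ∈ A x).map
          (Function.Embedding.subtype _) := by
        ext y
        simp only [mem_erase, mem_map, mem_filter, mem_univ, true_and,
          Function.Embedding.subtype_apply, Subtype.exists, exists_and_left, exists_prop,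
          exists_eq_right_right]
        tauto
      rw [this, Finset.card_map]
    -- Jensen for each row
    have hrow : ∀ i, (p : ℝ) * Real.log p ≤ (p : ℝ) * Real.log (A i).card +
        ∑ σ ∈ M A, ∑ j ∈ univ.filter (fun j => j ≠ i), L ((A j).erase (σ i)).card := by
      intro i
      have h1 := log_sum (A i) (P i) (hne i) p hp (hP i)
      have h2 : ∑ k ∈ A i, (P i k : ℝ) * Real.log (P i k) = ∑ σ ∈ M A, Real.log (P i (σ i)) := by
        rw [← Finset.sum_fiberwise_of_maps_to (s := M A) (t := A i) (g := fun σ : I ≃ J => σ i)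
          (fun σ hσ => (mem_filter.mp hσ).2 i)]
        refine Finset.sum_congr rfl fun k _ => ?_
        rw [Finset.sum_congr rfl (g := fun _ => Real.log (P i k))]
        · rw [Finset.sum_const, nsmul_eq_mul]
        · intro σ hσ
          rw [(mem_filter.mp hσ).2]
      rw [h2] at h1
      have h3 := Finset.sum_le_sum (fun σ hσ => hmin i σ hσ)
      linarith
    -- sum over the rows
    have hsum : ((n + 1 : ℕ) : ℝ) * ((p : ℝ) * Real.log p) ≤
        ((n + 1 : ℕ) : ℝ) * ((p : ℝ) * ∑ j, L (A j).card) := by
      have h1 := Finset.sum_le_sum (fun i (_ : i ∈ (univ : Finset I)) => hrow i)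
      rw [Finset.sum_const, Finset.card_univ, hI, nsmul_eq_mul, Finset.sum_add_distrib,
        Finset.sum_comm, ← Finset.mul_sum] at h1
      refine h1.trans (le_of_eq ?_)
      have h2 : ∀ σ ∈ M A, ∑ i, ∑ j ∈ univ.filter (fun j => j ≠ i), L ((A j).erase (σ i)).card =
          ∑ j, ((((n + 1 : ℕ) : ℝ) - (A j).card) * L (A j).card +
            (((A j).card : ℝ) - 1) * L ((A j).card - 1)) := by
        intro σ hσ
        have h3 : ∑ i, ∑ j ∈ univ.filter (fun j => j ≠ i), L ((A j).erase (σ i)).card =
            ∑ j, ∑ i ∈ univ.filter (fun i => i ≠ j), L ((A j).erase (σ i)).card := by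
          simp only [Finset.sum_filter]
          rw [Finset.sum_comm]
          refine Finset.sum_congr rfl fun j _ => Finset.sum_congr rfl fun i _ => ?_
          simp only [ne_comm (a := i) (b := j)]
        rw [h3]
        refine Finset.sum_congr rfl fun j _ => ?_
        rw [sum_rows A σ (mem_filter.mp hσ).2 j, hI]
      rw [Finset.sum_congr rfl h2, Finset.sum_const, nsmul_eq_mul, ← hpdef, ← mul_add,
        ← Finset.sum_add_distrib]
      rw [mul_left_comm]
      congr 1
      rw [Finset.mul_sum]
      refine Finset.sum_congr rfl fun j _ => ?_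
      have h4 := step_L (A j).card (Finset.card_pos.mpr (hne j))
      linarith
    have hn : (0 : ℝ) < ((n + 1 : ℕ) : ℝ) := by positivity
    have h5 : Real.log p ≤ ∑ j, L (A j).card :=
      le_of_mul_le_mul_left (le_of_mul_le_mul_left hsum hn) hp'
    rw [← Real.exp_log hp']
    calc Real.exp (Real.log p) ≤ Real.exp (∑ j, L (A j).card) := Real.exp_le_exp.mpr h5
      _ = ∏ j, g (A j).card := by
        rw [Real.exp_sum]
        refine Finset.prod_congr rfl fun j _ => ?_
        rw [← log_g, Real.exp_log (g_pos _)]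

end Breg

/-- **Bregman's theorem.** -/
theorem bregman {n : ℕ} (G : Gr n) : ((pm G).card : ℝ) ≤ ∏ r, g (G r).card := by
  have h := Breg.main n (Fin n) (Fin n) G (Fintype.card_fin n)
  have e : Breg.M G = pm G := by
    ext σ
    simp [Breg.M, pm]
  rw [← e]
  exact h

end Pool.Agent.Lead.TB
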