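import Pool.Agent.Lead.TB.Defs

/-!
# Project TB (MP_56afde): two perfect matchings can be simultaneously 2-coloured (module TB-B)
-/

set_option autoImplicit false

namespace Pool.Agent.Lead.TB

open Finset

theorem two_color {E : Type} [Fintype E] [DecidableEq E] (ρ γ : E → E)
    (hρ : ∀ e, ρ (ρ e) = e) (hρ' : ∀ e, ρ e ≠ e) (hγ : ∀ e, γ (γ e) = e) (hγ' : ∀ e, γ e ≠ e) :
    ∃ K : Finset E, ∀ e, (e ∈ K ↔ ρ e ∉ K) ∧ (e ∈ K ↔ γ e ∉ K) := by
  classical
  let P : Equiv.Perm E := ⟨fun e => γ (ρ e), fun e => ρ (γ e), fun e => by simp [hρ, hγ],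
    fun e => by simp [hρ, hγ]⟩
  let R : Equiv.Perm E := ⟨ρ, ρ, hρ, hρ⟩
  have hconj : R * P * R⁻¹ = P⁻¹ := by
    ext e
    change ρ (γ (ρ (ρ e))) = ρ (γ e)
    rw [hρ]
  have hz : ∀ (l : ℤ) (x : E), ρ ((P ^ l) x) = (P ^ (-l)) (ρ x) := by
    intro l x
    have h1 : R * P ^ l * R⁻¹ = P ^ (-l) := by
      rw [← conj_zpow, hconj, inv_zpow, zpow_neg]
    have h2 := congrArg (fun Q : Equiv.Perm E => Q (ρ x)) h1
    have h3 : (R⁻¹ : Equiv.Perm E) (ρ x) = x := by
      change ρ (ρ x) = x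
      exact hρ x
    simp only [Equiv.Perm.mul_apply, h3] at h2
    exact h2
  have hnot : ∀ e, ¬ Equiv.Perm.SameCycle P e (ρ e) := by
    rintro e ⟨i, hi⟩
    rcases Int.even_or_odd' i with ⟨l, rfl | rfl⟩
    · apply hρ' ((P ^ l) e)
      rw [hz, ← hi, ← Equiv.Perm.mul_apply, ← zpow_add]
      congr 2
      ring
    · apply hγ' (ρ ((P ^ l) e))
      have h1 : γ (ρ ((P ^ l) e)) = P ((P ^ l) e) := rfl
      rw [h1, hz, ← hi, ← Equiv.Perm.mul_apply, ← Equiv.Perm.mul_apply, ← zpow_add,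
        ← zpow_one_add]
      congr 2
      ring
  let s := Equiv.Perm.SameCycle.setoid P
  let f : E → ℕ := fun e => ((Finite.equivFin (Quotient s)) (Quotient.mk s e) : ℕ)
  have hf : ∀ x y, f x = f y ↔ Equiv.Perm.SameCycle P x y := by
    intro x y
    constructor
    · intro h
      have h1 := (Finite.equivFin (Quotient s)).injective (Fin.ext h)
      exact Quotient.exact h1
    · intro h
      have h1 : Quotient.mk s x = Quotient.mk s y := Quotient.sound h
      simp only [f, h1]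
  have h1 : ∀ e, f (γ e) = f (ρ e) := by
    intro e
    rw [hf]
    refine Equiv.Perm.SameCycle.symm ⟨1, ?_⟩
    rw [zpow_one]
    change γ (ρ (ρ e)) = γ e
    rw [hρ]
  have h2 : ∀ e, f (ρ (γ e)) = f e := by
    intro e
    rw [hf]
    refine ⟨1, ?_⟩
    rw [zpow_one]
    change γ (ρ (ρ (γ e))) = e
    rw [hρ, hγ]
  have h3 : ∀ e, f e ≠ f (ρ e) := fun e h => hnot e ((hf _ _).mp h)
  refine ⟨univ.filter fun e => f e < f (ρ e), fun e => ⟨?_, ?_⟩⟩
  · simp only [mem_filter, mem_univ, true_and, hρ]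
    have := h3 e
    omega
  · simp only [mem_filter, mem_univ, true_and, h1, h2]
    have := h3 e
    omega

end Pool.Agent.Lead.TB
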